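import Pool.Agent.H31.PC.Targets

/-!
# The module RES of the board `pc_modules`

A common zero modulo `q` of two binary forms forces `q` to divide the resultant.
-/

open Pool.Agent.H31.PC Pool.Agent.H31.RZ

namespace Pool.Agent.H56.PC

theorem sum_shift (n k N : ℕ) (hN : k + n < N) (c : ℕ → ℤ) (u v : ℤ) :
    ∑ i : Fin N, u ^ (N - 1 - (i : ℕ)) * v ^ (i : ℕ) *
      (if (i : ℕ) ∈ Set.Icc k (k + n) then c (i - k) else 0) =
    u ^ (N - 1 - n - k) * v ^ k * ∑ j ∈ Finset.range (n + 1), c j * u ^ (n - j) * v ^ j := by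
  rw [Fin.sum_univ_eq_sum_range (fun i => u ^ (N - 1 - i) * v ^ i *
      (if i ∈ Set.Icc k (k + n) then c (i - k) else 0)) N]
  rw [Finset.mul_sum]
  have h1 : ∑ i ∈ Finset.range N, u ^ (N - 1 - i) * v ^ i *
      (if i ∈ Set.Icc k (k + n) then c (i - k) else 0) =
      ∑ i ∈ Finset.Ico k (k + (n + 1)), u ^ (N - 1 - i) * v ^ i * c (i - k) := by
    rw [← Finset.sum_subset (s₁ := Finset.Ico k (k + (n + 1)))]
    · refine Finset.sum_congr rfl fun i hi => ?_
      rw [Finset.mem_Ico] at hi
      rw [if_pos]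
      exact ⟨hi.1, by omega⟩
    · intro i hi
      rw [Finset.mem_Ico] at hi
      rw [Finset.mem_range]
      omega
    · intro i _ hi
      rw [if_neg, mul_zero]
      intro h
      exact hi (Finset.mem_Ico.2 ⟨h.1, by have := h.2; omega⟩)
  rw [h1, Finset.sum_Ico_eq_sum_range]
  rw [show k + (n + 1) - k = n + 1 by omega]
  refine Finset.sum_congr rfl fun j hj => ?_
  rw [Finset.mem_range] at hj
  rw [show k + j - k = j by omega, show N - 1 - (k + j) = (N - 1 - n - k) + (n - j) by omega,
    pow_add, pow_add]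
  ring

theorem pf_RES : T_RES := by
  intro d e φ ψ q u v hd he _ _ h1 h2 hg
  set S := Polynomial.sylvester φ ψ d e with hS
  have hr : φ.resultant ψ d e = S.det := rfl
  let w : Fin (d + e) → ℤ := fun i => u ^ (d + e - 1 - (i : ℕ)) * v ^ (i : ℕ)
  have hw : ∀ j, q ∣ (Matrix.vecMul w S) j := by
    intro j
    induction j using Fin.addCases with
    | left j =>
      have h3 : Matrix.vecMul w S (Fin.castAdd e j) =
          u ^ (d + e - 1 - e - (j : ℕ)) * v ^ (j : ℕ) * hv e ψ u v := by
        rw [hv, ← sum_shift e j (d + e) (by omega) (fun i => ψ.coeff i) u v]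
        simp only [Matrix.vecMul, dotProduct]
        refine Finset.sum_congr rfl fun i _ => ?_
        simp only [hS, Polynomial.sylvester, Matrix.of_apply, Fin.addCases_left, w]
      rw [h3]
      exact Dvd.dvd.mul_left h2 _
    | right j =>
      have h3 : Matrix.vecMul w S (Fin.natAdd d j) =
          u ^ (d + e - 1 - d - (j : ℕ)) * v ^ (j : ℕ) * hv d φ u v := by
        rw [hv, ← sum_shift d j (d + e) (by omega) (fun i => φ.coeff i) u v]
        simp only [Matrix.vecMul, dotProduct]
        refine Finset.sum_congr rfl fun i _ => ?_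
        simp only [hS, Polynomial.sylvester, Matrix.of_apply, Fin.addCases_right, w]
      rw [h3]
      exact Dvd.dvd.mul_left h1 _
  have hk : ∀ k, q ∣ S.det * w k := by
    intro k
    have h3 : Matrix.vecMul (Matrix.vecMul w S) S.adjugate k = S.det * w k := by
      rw [Matrix.vecMul_vecMul, Matrix.mul_adjugate, Matrix.vecMul_smul, Matrix.vecMul_one]
      rfl
    rw [← h3]
    change q ∣ ∑ i, Matrix.vecMul w S i * S.adjugate i k
    exact Finset.dvd_sum fun i _ => Dvd.dvd.mul_right (hw i) _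
  rw [hr]
  have hu : q ∣ S.det * u ^ (d + e - 1) := by
    have := hk ⟨0, by omega⟩
    simpa [w] using this
  have hv' : q ∣ S.det * v ^ (d + e - 1) := by
    have := hk ⟨d + e - 1, by omega⟩
    simpa [w] using this
  have hc : IsCoprime q ((Int.gcd u v : ℤ)) := by
    rw [Int.isCoprime_iff_gcd_eq_one]
    by_contra hne
    have h3 := hg (Int.gcd q (Int.gcd u v : ℤ) : ℤ) (Int.gcd_dvd_left _ _)
      ((Int.gcd_dvd_right _ _).trans (Int.gcd_dvd_left _ _))
      ((Int.gcd_dvd_right _ _).trans (Int.gcd_dvd_right _ _))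
    rw [Int.ofNat_isUnit, Nat.isUnit_iff] at h3
    exact hne h3
  have hc' : IsCoprime q ((Int.gcd u v : ℤ) ^ (d + e - 1)) := hc.pow_right
  have h4 : (Int.gcd u v : ℤ) ^ (d + e - 1) =
      (Int.gcd (u ^ (d + e - 1)) (v ^ (d + e - 1)) : ℤ) := by
    rw [Int.pow_gcd_pow]
    push_cast
    rfl
  refine hc'.dvd_of_dvd_mul_right ?_
  rw [h4, Int.gcd_eq_gcd_ab, mul_add, ← mul_assoc, ← mul_assoc]
  exact dvd_add (Dvd.dvd.mul_right hu _) (Dvd.dvd.mul_right hv' _)

end Pool.Agent.H56.PC
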